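import Pool.Agent.Helper98.PG.Core

/-!
Project PG (MP_b8862a_ag): the predicate `Core` and the indecomposability for three Hodge numbers `s, h, s` in the
degrees `m + k, m, m - k`.
-/

set_option linter.unusedSectionVars false

open Matrix Module

attribute [local instance 100] LieRing.ofAssociativeRing

namespace MH

variable {n : Type*} [Fintype n] [DecidableEq n]

theorem eig_smul55 (f : Module.End ℂ (n → ℂ)) {a : ℂ} (ha : a ≠ 0) (c : ℂ) :
    Module.End.eigenspace (a⁻¹ • f) c = Module.End.eigenspace f (a * c) := by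
  ext v
  rw [Module.End.mem_eigenspace_iff, Module.End.mem_eigenspace_iff, LinearMap.smul_apply]
  constructor
  · intro h
    rw [mul_smul, ← h, smul_smul, mul_inv_cancel₀ ha, one_smul]
  · intro h
    rw [h, smul_smul, ← mul_assoc, inv_mul_cancel₀ ha, one_mul]

/-- `Core` for the Hodge numbers `s, h, s` in the degrees `m + k, m, m - k`, from the theorem on Lie subalgebras of
endomorphisms. -/
theorem core_three55 {m k : ℤ} (hk : 0 < k) {r : ℤ → ℕ} {s h : ℕ} (h2 : 2 ≤ Fintype.card n) (r1 : r (m + k) = s)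
    (r0 : r m = h) (rr : ∀ p, p ≠ m + k → p ≠ m → p ≠ m - k → r p = 0)
    (core : ∀ ω : LinearMap.BilinForm ℂ (n → ℂ), ω.IsSymm → ω.Nondegenerate →
      ∀ L : LieSubalgebra ℂ (Module.End ℂ (n → ℂ)), LieAlgebra.IsSimple ℂ L →
      (∀ W : Submodule ℂ (n → ℂ), (∀ x ∈ L, ∀ u ∈ W, x u ∈ W) → W = ⊥ ∨ W = ⊤) →
      (∀ x ∈ L, ∀ u v, ω (x u) v = -ω u (x v)) →
      ∀ y ∈ L, (⨆ c : ℂ, Module.End.eigenspace y c) = ⊤ →
        (∀ c : ℂ, Module.End.eigenspace y c ≠ ⊥ → c = 0 ∨ c = 1 ∨ c = -1) →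
        finrank ℂ (Module.End.eigenspace y 1) = s → finrank ℂ (Module.End.eigenspace y 0) = h →
        ∀ x : Module.End ℂ (n → ℂ), (∀ u v, ω (x u) v = -ω u (x v)) → x ∈ L) : Core n m r := by
  intro Q' Qi hQ hQ1 hQ2 L hbr hirr hsk hs h' E Λ hh hE hint hr X hX
  have ha : (k : ℂ) ≠ 0 := by exact_mod_cast hk.ne'
  have hrk : ∀ p : ℤ, finrank ℂ (Module.End.eigenspace (Matrix.toLin' h') (((p - m : ℤ) : ℝ) : ℂ)) = r p := fun p => by
    rw [hE.finrank_eig98, hr]
  have h3 := core (Matrix.toBilin' Q') (form_symm98 hQ) (form_nondeg98 hQ1) (lieOf L hbr) (lieOf_simple hirr h2 hs)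
    (lieOf_irr hirr) (lieOf_sk hsk) ((k : ℂ)⁻¹ • Matrix.toLin' h')
    ((lieOf L hbr).smul_mem _ (toLin_mem_lieOf hh)) ?_ ?_ ?_ ?_ (Matrix.toLin' X) ?_
  · rw [mem_lieOf, LinearMap.toMatrix'_toLin'] at h3
    exact h3
  · rw [eq_top_iff, ← hE.iSup_eig98, iSup_le_iff]
    intro c
    have h4 : Module.End.eigenspace (Matrix.toLin' h') c =
        Module.End.eigenspace ((k : ℂ)⁻¹ • Matrix.toLin' h') ((k : ℂ)⁻¹ * c) := by
      rw [eig_smul55 _ ha, ← mul_assoc, mul_inv_cancel₀ ha, one_mul]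
    rw [h4]
    exact le_iSup (fun c : ℂ => Module.End.eigenspace ((k : ℂ)⁻¹ • Matrix.toLin' h') c) _
  · intro c hc
    rw [eig_smul55 _ ha] at hc
    obtain ⟨μ, hμ, hcμ⟩ := hE.eig_ne98 hc
    obtain ⟨p, hp⟩ := hint μ hμ
    rw [hcμ, hp] at hc
    have h4 : r p ≠ 0 := by
      rw [← hrk p]
      intro h5
      exact hc (Submodule.finrank_eq_zero.1 h5)
    have h5 : p = m ∨ p = m + k ∨ p = m - k := by
      by_contra hcon
      push Not at hcon
      exact h4 (rr p hcon.2.1 hcon.1 hcon.2.2)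
    have hval : (k : ℂ) * c = ((p - m : ℤ) : ℂ) := by
      rw [hcμ, hp]
      push_cast
      rfl
    rcases h5 with h5 | h5 | h5
    · left
      rw [h5, sub_self, Int.cast_zero] at hval
      exact (mul_eq_zero.1 hval).resolve_left ha
    · right; left
      rw [h5, add_sub_cancel_left] at hval
      exact mul_left_cancel₀ ha (by rw [hval, mul_one])
    · right; right
      rw [h5, show m - k - m = -k by ring] at hval
      exact mul_left_cancel₀ ha (by rw [hval]; push_cast; ring)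
  · have h4 := hrk (m + k)
    rw [r1, show (((m + k - m : ℤ) : ℝ) : ℂ) = (k : ℂ) * 1 by rw [add_sub_cancel_left]; simp] at h4
    rw [eig_smul55 _ ha]
    exact h4
  · have h4 := hrk m
    rw [r0, show (((m - m : ℤ) : ℝ) : ℂ) = (k : ℂ) * 0 by rw [sub_self]; simp] at h4
    rw [eig_smul55 _ ha]
    exact h4
  · intro u v
    rw [Matrix.toLin'_apply, Matrix.toLin'_apply]
    exact skew_iff98.1 hX u v

/-- The numbers `s, h, s` in the degrees `m + k, m, m - k` are indecomposable unless `h = 2 s`. -/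
theorem indec_three55 {m k : ℤ} (hk : 0 < k) {r : ℤ → ℕ} {s h : ℕ} (r1 : r (m + k) = s) (r0 : r m = h)
    (rr : ∀ p, p ≠ m + k → p ≠ m → p ≠ m - k → r p = 0) (hh : h ≠ 2 * s) : NI.Indec (2 * m) r := by
  intro a f g hf hg hfg
  by_contra hcon
  push Not at hcon
  obtain ⟨hf2, hg2⟩ := hcon
  have hfn : f.support.Nonempty := Finset.card_pos.1 (by omega)
  have hgn : g.support.Nonempty := Finset.card_pos.1 (by omega)
  obtain ⟨i1, hi1⟩ : ∃ i1, i1 = f.support.max' hfn := ⟨_, rfl⟩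
  obtain ⟨i0, hi0⟩ : ∃ i0, i0 = f.support.min' hfn := ⟨_, rfl⟩
  obtain ⟨j1, hj1⟩ : ∃ j1, j1 = g.support.max' hgn := ⟨_, rfl⟩
  obtain ⟨j0, hj0⟩ : ∃ j0, j0 = g.support.min' hgn := ⟨_, rfl⟩
  have mi1 : f i1 ≠ 0 := Finsupp.mem_support_iff.1 (hi1 ▸ f.support.max'_mem hfn)
  have mi0 : f i0 ≠ 0 := Finsupp.mem_support_iff.1 (hi0 ▸ f.support.min'_mem hfn)
  have mj1 : g j1 ≠ 0 := Finsupp.mem_support_iff.1 (hj1 ▸ g.support.max'_mem hgn)
  have mj0 : g j0 ≠ 0 := Finsupp.mem_support_iff.1 (hj0 ▸ g.support.min'_mem hgn)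
  have li : ∀ i, f i ≠ 0 → i0 ≤ i ∧ i ≤ i1 := fun i hi => by
    rw [hi0, hi1]
    exact ⟨f.support.min'_le _ (Finsupp.mem_support_iff.2 hi), f.support.le_max' _ (Finsupp.mem_support_iff.2 hi)⟩
  have lj : ∀ j, g j ≠ 0 → j0 ≤ j ∧ j ≤ j1 := fun j hj => by
    rw [hj0, hj1]
    exact ⟨g.support.min'_le _ (Finsupp.mem_support_iff.2 hj), g.support.le_max' _ (Finsupp.mem_support_iff.2 hj)⟩
  have ni : i0 < i1 := by
    have h1 := f.support.min'_lt_max'_of_card (by omega)
    rw [hi0, hi1]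
    exact h1
  have nj : j0 < j1 := by
    have h1 := g.support.min'_lt_max'_of_card (by omega)
    rw [hj0, hj1]
    exact h1
  have ne0 : ∀ i j, f i ≠ 0 → g j ≠ 0 → r (i + j) ≠ 0 := by
    intro i j hi hj h0
    rw [hfg, Finsupp.sum, Finset.sum_eq_zero_iff] at h0
    have h1 := h0 i (Finsupp.mem_support_iff.2 hi)
    rw [add_sub_cancel_left] at h1
    exact mul_ne_zero hi hj h1
  have rng : ∀ p, r p ≠ 0 → p = m + k ∨ p = m ∨ p = m - k := by
    intro p hp
    by_contra hcon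
    push Not at hcon
    exact hp (rr p hcon.1 hcon.2.1 hcon.2.2)
  have b00 := rng _ (ne0 i0 j0 mi0 mj0)
  have b10 := rng _ (ne0 i1 j0 mi1 mj0)
  have b01 := rng _ (ne0 i0 j1 mi0 mj1)
  have b11 := rng _ (ne0 i1 j1 mi1 mj1)
  have e1 : i1 = i0 + k := by omega
  have e2 : j1 = j0 + k := by omega
  have e3 : i0 + j0 = m - k := by omega
  -- only the two ends occur
  have of : ∀ i, f i ≠ 0 → i = i0 ∨ i = i0 + k := by
    intro i hi
    have h1 := li i hi
    have h2 := rng _ (ne0 i j0 hi mj0)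
    omega
  have og : ∀ j, g j ≠ 0 → j = j0 ∨ j = j0 + k := by
    intro j hj
    have h1 := lj j hj
    have h2 := rng _ (ne0 i0 j mi0 hj)
    omega
  have pf : f (i0 + k) = f i0 := by
    have h1 := hf i0
    have h2 : a - i0 = i0 + k := by
      have h3 := li (a - i0) (by rw [hf]; exact mi0)
      have h4 := li (a - i1) (by rw [hf]; exact mi1)
      omega
    rw [h2] at h1
    exact h1
  have pg : g (j0 + k) = g j0 := by
    have h1 := hg j0
    have h2 : 2 * m - a - j0 = j0 + k := by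
      have h3 := lj (2 * m - a - j0) (by rw [hg]; exact mj0)
      have h4 := lj (2 * m - a - j1) (by rw [hg]; exact mj1)
      omega
    rw [h2] at h1
    exact h1
  have sub : f.support ⊆ {i0, i0 + k} := by
    intro i hi
    have h1 := of i (Finsupp.mem_support_iff.1 hi)
    simp only [Finset.mem_insert, Finset.mem_singleton]
    exact h1
  have val : ∀ p, r p = f i0 * g (p - i0) + f i0 * g (p - (i0 + k)) := by
    intro p
    have h1 : (f.sum fun i x => x * g (p - i)) = ∑ i ∈ ({i0, i0 + k} : Finset ℤ), f i * g (p - i) :=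
      Finsupp.sum_of_support_subset f sub (fun i x => x * g (p - i)) (fun i _ => Nat.zero_mul _)
    rw [hfg, h1, Finset.sum_pair (by omega), pf]
  have g0 : ∀ j, j ≠ j0 → j ≠ j0 + k → g j = 0 := by
    intro j h1 h2
    by_contra h3
    have h4 := og j h3
    omega
  have v1 := val (m + k)
  have v0 := val m
  rw [r1, show m + k - i0 = j0 + k + k by omega, show m + k - (i0 + k) = j0 + k by omega, pg,
    g0 (j0 + k + k) (by omega) (by omega)] at v1
  rw [r0, show m - i0 = j0 + k by omega, show m - (i0 + k) = j0 by omega, pg] at v0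
  apply hh
  rw [v0, v1]
  ring

end MH
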