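import Pool.Agent.Helper3.PF.Defs

/-!
Project PG (MP_b8862a_ag), block P2: chains of weights, one on each level. The system of the simple roots that touch the
chain is of type `A` or `B`, and the chain is the standard one.
-/

set_option linter.unusedSectionVars false
set_option linter.unusedVariables false

namespace PG

open PF

variable {E : Type*} [NormedAddCommGroup E] [InnerProductSpace ℝ E]

/-- A chain `ν 0, ..., ν (s - 1)` of weights, one on each level, with `s` odd; `Δ` is the set of the simple roots that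
touch it. -/
structure Chain (Φ Δ : Finset E) (s : ℕ) (ν : ℕ → E) (lev : E →ₗ[ℝ] ℝ) : Prop where
  sub : Δ ⊆ Φ
  ne_zero : ∀ a ∈ Φ, a ≠ 0
  int : ∀ a ∈ Φ, ∀ b ∈ Φ, ∃ k : ℤ, co a b = k
  refl : ∀ a ∈ Φ, ∀ b ∈ Φ, b - co a b • a ∈ Φ
  lev_one : ∀ b ∈ Δ, lev b = 1
  obt : ∀ b ∈ Δ, ∀ c ∈ Δ, b ≠ c → inner ℝ b c ≤ (0 : ℝ)
  no3 : ∀ b ∈ Δ, ∀ c ∈ Δ, co b c ≠ -3
  step : ∀ j, j + 1 < s → ν j - ν (j + 1) ∈ Δ
  intν : ∀ b ∈ Δ, ∀ j < s, ∃ k : ℤ, co b (ν j) = k
  reflν : ∀ b ∈ Δ, ∀ j < s, ∃ k < s, ν j - co b (ν j) • b = ν k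
  down : ∀ b ∈ Δ, ∀ j < s, 0 < co b (ν j) → ∃ k < s, ν j - b = ν k
  up : ∀ b ∈ Δ, ∀ j < s, co b (ν j) < 0 → ∃ k < s, ν j + b = ν k
  touch : ∀ b ∈ Δ, ∃ j < s, co b (ν j) ≠ 0
  odd : Odd s
  two : 2 ≤ Δ.card

/-- type `A`: all differences are roots, of the same length, and the pairings are those of the standard module -/
def IsA (Φ : Finset E) (s : ℕ) (ν : ℕ → E) : Prop :=
  ∃ l : ℝ, 0 < l ∧ ∀ i < s, ∀ j < s, i ≠ j → ν i - ν j ∈ Φ ∧ inner ℝ (ν i - ν j) (ν i - ν j) = l ∧
    ∀ k < s, inner ℝ (ν k) (ν i - ν j) = (l / 2) * ((if k = i then 1 else 0) - (if k = j then 1 else 0))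

/-- type `B` -/
def IsB (Φ : Finset E) (s : ℕ) (ν : ℕ → E) : Prop :=
  ∃ (r : ℕ) (τ : E) (e : ℕ → E) (l : ℝ), 2 ≤ r ∧ s = 2 * r + 1 ∧ 0 < l ∧
    (∀ i < r, ∀ j < r, inner ℝ (e i) (e j) = if i = j then l else (0 : ℝ)) ∧ (∀ i < r, inner ℝ τ (e i) = (0 : ℝ)) ∧
    (∀ i < r, e i ∈ Φ ∧ -e i ∈ Φ) ∧
    (∀ i < r, ∀ j < r, i ≠ j → e i + e j ∈ Φ ∧ e i - e j ∈ Φ ∧ -(e i + e j) ∈ Φ) ∧
    (∀ i < r, ν i = τ + e i) ∧ ν r = τ ∧ ∀ i < r, ν (2 * r - i) = τ - e i

/-- the steps -/
def bt (ν : ℕ → E) (j : ℕ) : E := ν j - ν (j + 1)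

theorem co_add (a x y : E) : co a (x + y) = co a x + co a y := by
  unfold co
  rw [inner_add_left]
  ring

theorem co_sub (a x y : E) : co a (x - y) = co a x - co a y := by
  unfold co
  rw [inner_sub_left]
  ring

theorem co_smul (a x : E) (t : ℝ) : co a (t • x) = t * co a x := by
  unfold co
  rw [inner_smul_left]
  simp only [conj_trivial]
  ring

theorem co_self' {a : E} (ha : a ≠ 0) : co a a = 2 := by
  have h1 : (0 : ℝ) < inner ℝ a a := real_inner_self_pos.2 ha
  unfold co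
  field_simp

theorem inner_eq {a : E} (ha : a ≠ 0) (x : E) : inner ℝ x a = co a x * inner ℝ a a / 2 := by
  have h1 : (0 : ℝ) < inner ℝ a a := real_inner_self_pos.2 ha
  unfold co
  field_simp

theorem co_zero_symm {a b : E} (ha : a ≠ 0) (h : co a b = 0) : co b a = 0 := by
  have h1 := inner_eq ha b
  rw [h] at h1
  unfold co
  rw [real_inner_comm, h1]
  simp

/-- reflections are isometries -/
theorem inner_refl' {a : E} (ha : a ≠ 0) (x y : E) :
    inner ℝ (x - co a x • a) (y - co a y • a) = (inner ℝ x y : ℝ) := by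
  have h1 := (real_inner_self_pos.2 ha).ne'
  rw [inner_sub_left, inner_sub_right, inner_sub_right, inner_smul_left, inner_smul_right, inner_smul_left,
    inner_smul_right]
  simp only [conj_trivial]
  unfold co
  rw [real_inner_comm y a]
  field_simp
  ring

variable {Φ Δ : Finset E} {s : ℕ} {ν : ℕ → E} {lev : E →ₗ[ℝ] ℝ}

namespace Chain

variable (C : Chain Φ Δ s ν lev)
include C

theorem ne {b : E} (hb : b ∈ Δ) : b ≠ 0 := C.ne_zero b (C.sub hb)

theorem bt_mem {j : ℕ} (hj : j + 1 < s) : bt ν j ∈ Δ := C.step j hj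

theorem nu_succ (j : ℕ) : ν (j + 1) = ν j - bt ν j := by
  unfold bt
  abel

theorem lev_nu {j : ℕ} (hj : j < s) : lev (ν j) = lev (ν 0) - j := by
  induction j with
  | zero => simp
  | succ j ih =>
    rw [C.nu_succ j, map_sub, ih (by omega), C.lev_one _ (C.bt_mem hj)]
    push_cast
    ring

theorem idx {j k : ℕ} (hj : j < s) (hk : k < s) {t : ℕ} (h : lev (ν k) = lev (ν j) - t) : k = j + t := by
  rw [C.lev_nu hj, C.lev_nu hk] at h
  have h1 : (k : ℝ) = j + t := by linarith
  exact_mod_cast h1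

theorem inj {j k : ℕ} (hj : j < s) (hk : k < s) (h : ν j = ν k) : j = k := by
  have := C.idx hk hj (t := 0) (by rw [h]; simp)
  omega

theorem pos {b : E} (hb : b ∈ Δ) {j : ℕ} (hj : j < s) (h : 0 < co b (ν j)) : j + 1 < s ∧ bt ν j = b := by
  obtain ⟨k, hk, h1⟩ := C.down b hb j hj h
  have h2 : k = j + 1 := by
    refine C.idx hj hk (t := 1) ?_
    rw [← h1, map_sub, C.lev_one b hb]
    norm_num
  subst h2
  refine ⟨hk, ?_⟩
  unfold bt
  rw [← h1]
  abel

theorem neg {b : E} (hb : b ∈ Δ) {j : ℕ} (hj : j < s) (h : co b (ν j) < 0) :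
    ∃ i, i + 1 = j ∧ bt ν i = b := by
  obtain ⟨k, hk, h1⟩ := C.up b hb j hj h
  have h2 : j = k + 1 := by
    refine C.idx hk hj (t := 1) ?_
    rw [← h1, map_add, C.lev_one b hb]
    norm_num
  subst h2
  refine ⟨k, rfl, ?_⟩
  unfold bt
  rw [← h1]
  abel

theorem zero {b : E} (hb : b ∈ Δ) {j : ℕ} (hj : j < s) (h1 : j + 1 < s → bt ν j ≠ b)
    (h2 : ∀ i, i + 1 = j → bt ν i ≠ b) : co b (ν j) = 0 := by
  rcases lt_trichotomy (co b (ν j)) 0 with h | h | h
  · obtain ⟨i, h3, h4⟩ := C.neg hb hj h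
    exact absurd h4 (h2 i h3)
  · exact h
  · obtain ⟨h3, h4⟩ := C.pos hb hj h
    exact absurd h4 (h1 h3)

/-- the first of a run of equal steps -/
theorem R {j : ℕ} (hj : j + 1 < s) (h : ∀ i, i + 1 = j → bt ν i ≠ bt ν j) : 1 ≤ co (bt ν j) (ν j) := by
  have hb := C.bt_mem hj
  have hjs : j < s := by omega
  obtain ⟨m, hm⟩ := C.intν _ hb j hjs
  rcases lt_trichotomy (co (bt ν j) (ν j)) 0 with h1 | h1 | h1
  · obtain ⟨i, h3, h4⟩ := C.neg hb hjs h1
    exact absurd h4 (h i h3)
  · exfalso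
    obtain ⟨k, hk, h2⟩ := C.reflν _ hb (j + 1) hj
    have h3 : co (bt ν j) (ν (j + 1)) = -2 := by
      rw [C.nu_succ j, co_sub, h1, co_self' (C.ne hb)]
      norm_num
    have h4 : ν k = ν j + bt ν j := by
      rw [← h2, h3, C.nu_succ j, neg_smul, two_smul]
      abel
    have h5 : j = k + 1 := by
      refine C.idx hk hjs (t := 1) ?_
      rw [h4, map_add, C.lev_one _ hb]
      norm_num
    refine h k h5.symm ?_
    have h6 : bt ν k = ν k - ν (k + 1) := rfl
    rw [h6, h4, ← h5]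
    abel
  · rw [hm] at h1 ⊢
    have h2 : 0 < m := by exact_mod_cast h1
    exact_mod_cast h2

/-- a run of length one -/
theorem one {j : ℕ} (hj : j + 1 < s) (h : ∀ i, i + 1 = j → bt ν i ≠ bt ν j)
    (h' : j + 2 < s → bt ν (j + 1) ≠ bt ν j) : co (bt ν j) (ν j) = 1 := by
  have hb := C.bt_mem hj
  have hjs : j < s := by omega
  have h1 := C.R hj h
  obtain ⟨m, hm⟩ := C.intν _ hb j hjs
  rw [hm] at h1 ⊢
  have h2 : 1 ≤ m := by exact_mod_cast h1
  by_contra hne
  have h3 : m ≠ 1 := by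
    rintro rfl
    exact hne (by norm_num)
  have h4 : 2 ≤ m := by omega
  rcases eq_or_lt_of_le h4 with h5 | h5
  · obtain ⟨k, hk, h6⟩ := C.reflν _ hb j hjs
    rw [hm, ← h5] at h6
    have h7 : k = j + 2 := by
      refine C.idx hjs hk (t := 2) ?_
      rw [← h6, map_sub, map_smul, C.lev_one _ hb]
      norm_num
    subst h7
    apply h' hk
    have h8 : bt ν (j + 1) = ν (j + 1) - ν (j + 2) := rfl
    rw [h8, ← h6, C.nu_succ j]
    push_cast
    rw [two_smul]
    abel
  · have h6 : (3 : ℝ) ≤ m := by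
      have : 3 ≤ m := by omega
      exact_mod_cast this
    obtain ⟨h7, h8⟩ := C.pos hb hj (by
      rw [C.nu_succ j, co_sub, hm, co_self' (C.ne hb)]
      linarith)
    exact h' h7 h8

/-! ### Type A -/

section typeA

variable (hall : ∀ i j, i < j → j + 1 < s → bt ν i ≠ bt ν j)
include hall

theorem A_one {j : ℕ} (hj : j + 1 < s) : co (bt ν j) (ν j) = 1 :=
  C.one hj (fun i hi => hall i j (by omega) hj) (fun h => (hall j (j + 1) (by omega) h).symm)

theorem A_neg {j : ℕ} (hj : j + 1 < s) : co (bt ν j) (ν (j + 1)) = -1 := by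
  rw [C.nu_succ j, co_sub, C.A_one hall hj, co_self' (C.ne (C.bt_mem hj))]
  norm_num

theorem A_zero {j k : ℕ} (hj : j + 1 < s) (hk : k < s) (h1 : k ≠ j) (h2 : k ≠ j + 1) : co (bt ν j) (ν k) = 0 := by
  refine C.zero (C.bt_mem hj) hk ?_ ?_
  · intro hks
    rcases lt_or_gt_of_ne h1 with h3 | h3
    · exact hall k j h3 hj
    · exact (hall j k h3 hks).symm
  · intro i hi
    have h3 : i ≠ j := by omega
    rcases lt_or_gt_of_ne h3 with h4 | h4
    · exact hall i j h4 hj
    · exact (hall j i h4 (by omega)).symm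

theorem A_len {j : ℕ} (hj : j + 2 < s) : inner ℝ (bt ν j) (bt ν j) = (inner ℝ (bt ν (j + 1)) (bt ν (j + 1)) : ℝ) := by
  have hb := C.bt_mem (j := j) (by omega)
  have hb' := C.bt_mem (j := j + 1) hj
  have h1 : co (bt ν (j + 1)) (bt ν j) = -1 := by
    change co (bt ν (j + 1)) (ν j - ν (j + 1)) = -1
    rw [co_sub, C.A_zero hall hj (by omega) (by omega) (by omega), C.A_one hall hj]
    norm_num
  have h2 : co (bt ν j) (bt ν (j + 1)) = -1 := by
    change co (bt ν j) (ν (j + 1) - ν (j + 2)) = -1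
    rw [co_sub, C.A_neg hall (by omega), C.A_zero hall (by omega) hj (by omega) (by omega)]
    norm_num
  have h3 := inner_eq (C.ne hb') (bt ν j)
  have h4 := inner_eq (C.ne hb) (bt ν (j + 1))
  rw [h1] at h3
  rw [h2, real_inner_comm] at h4
  linarith

theorem A_len0 {j : ℕ} (hj : j + 1 < s) : inner ℝ (bt ν j) (bt ν j) = (inner ℝ (bt ν 0) (bt ν 0) : ℝ) := by
  induction j with
  | zero => rfl
  | succ j ih => rw [← C.A_len hall hj, ih (by omega)]

theorem A_inner {j k : ℕ} (hj : j + 1 < s) (hk : k < s) : inner ℝ (ν k) (bt ν j) =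
    ((inner ℝ (bt ν 0) (bt ν 0) : ℝ) / 2) * ((if k = j then 1 else 0) - (if k = j + 1 then 1 else 0)) := by
  rw [inner_eq (C.ne (C.bt_mem hj)), C.A_len0 hall hj]
  by_cases h1 : k = j
  · subst h1
    rw [C.A_one hall hj, if_pos rfl, if_neg (by omega)]
    ring
  by_cases h2 : k = j + 1
  · subst h2
    rw [C.A_neg hall hj, if_neg h1, if_pos rfl]
    ring
  rw [C.A_zero hall hj hk h1 h2, if_neg h1, if_neg h2]
  ring

theorem A_inner' {i k : ℕ} (hk : k < s) (m : ℕ) (hm : i + m < s) : inner ℝ (ν k) (ν i - ν (i + m)) =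
    ((inner ℝ (bt ν 0) (bt ν 0) : ℝ) / 2) * ((if k = i then 1 else 0) - (if k = i + m then 1 else 0)) := by
  induction m with
  | zero => simp
  | succ m ih =>
    have e : ν i - ν (i + (m + 1)) = (ν i - ν (i + m)) + bt ν (i + m) := by
      unfold bt
      rw [add_assoc]
      abel
    rw [e, inner_add_right, ih (by omega), C.A_inner hall (j := i + m) (by omega) hk, add_assoc]
    ring

theorem A_root (m : ℕ) : ∀ i, i + m + 1 < s → ν i - ν (i + m + 1) ∈ Φ := by
  induction m with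
  | zero => intro i hi; exact C.sub (C.bt_mem hi)
  | succ m ih =>
    intro i hi
    have h1 := ih (i + 1) (by omega)
    have hb := C.bt_mem (j := i) (by omega)
    have h2 := C.refl _ (C.sub hb) _ h1
    have e1 : i + 1 + m + 1 = i + (m + 1) + 1 := by ring
    rw [e1] at h2
    rw [co_sub, C.A_neg hall (by omega), C.A_zero hall (by omega) hi (by omega) (by omega)] at h2
    have e2 : ν (i + 1) - ν (i + (m + 1) + 1) - (-1 - 0 : ℝ) • bt ν i = ν i - ν (i + (m + 1) + 1) := by
      rw [C.nu_succ i, sub_zero, neg_smul, one_smul]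
      abel
    rwa [e2] at h2

theorem neg_root {a : E} (ha : a ∈ Φ) : -a ∈ Φ := by
  have h1 := C.refl a ha a ha
  rw [co_self' (C.ne_zero a ha), two_smul] at h1
  have h2 : -a = a - (a + a) := by abel
  rw [h2]
  exact h1

theorem isA : IsA Φ s ν := by
  have hs0 : 0 < (inner ℝ (bt ν 0) (bt ν 0) : ℝ) ∨ s ≤ 1 := by
    by_cases h : 0 + 1 < s
    · exact Or.inl (real_inner_self_pos.2 (C.ne (C.bt_mem h)))
    · exact Or.inr (by omega)
  rcases hs0 with hs0 | hs0
  swap
  · exact ⟨1, one_pos, fun i hi j hj hij => by omega⟩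
  refine ⟨_, hs0, ?_⟩
  have key : ∀ i j, i < j → j < s → ν i - ν j ∈ Φ ∧ inner ℝ (ν i - ν j) (ν i - ν j) = (inner ℝ (bt ν 0) (bt ν 0) : ℝ) ∧
      ∀ k < s, inner ℝ (ν k) (ν i - ν j) =
        ((inner ℝ (bt ν 0) (bt ν 0) : ℝ) / 2) * ((if k = i then 1 else 0) - (if k = j then 1 else 0)) := by
    intro i j hij hj
    obtain ⟨m, rfl⟩ := Nat.exists_eq_add_of_lt hij
    have h1 := C.A_root hall m i hj
    have h2 := fun k hk => C.A_inner' hall (i := i) (k := k) hk (m + 1) (by omega)
    refine ⟨h1, ?_, fun k hk => h2 k hk⟩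
    have h3 := h2 i (by omega)
    have h4 := h2 (i + m + 1) hj
    rw [← add_assoc] at h3 h4
    rw [inner_sub_left, h3, h4, if_pos rfl, if_pos rfl, if_neg (by omega), if_neg (by omega)]
    ring
  intro i hi j hj hij
  rcases lt_or_gt_of_ne hij with h | h
  · exact key i j h hj
  · obtain ⟨h1, h2, h3⟩ := key j i h hi
    have e : ν i - ν j = -(ν j - ν i) := by abel
    refine ⟨by rw [e]; exact C.neg_root hall h1, by rw [e, inner_neg_neg]; exact h2, fun k hk => ?_⟩
    rw [e, inner_neg_right, h3 k hk]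
    ring

end typeA

/-! ### The way back -/

omit C in
theorem refl_conj {a : E} (ha : a ≠ 0) (e x : E) :
    ((x - co a x • a) - co e (x - co a x • a) • e) - co a ((x - co a x • a) - co e (x - co a x • a) • e) • a =
      x - co (e - co a e • a) x • (e - co a e • a) := by
  have h1 : co (e - co a e • a) x = co e (x - co a x • a) := by
    have h2 : inner ℝ x (e - co a e • a) = (inner ℝ (x - co a x • a) e : ℝ) := by
      rw [inner_sub_left, inner_sub_right, inner_smul_left, inner_smul_right]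
      simp only [conj_trivial]
      unfold co
      rw [real_inner_comm a x, real_inner_comm e a]
      ring
    change 2 * inner ℝ x (e - co a e • a) / inner ℝ (e - co a e • a) (e - co a e • a) =
      2 * inner ℝ (x - co a x • a) e / inner ℝ e e
    rw [h2, inner_refl' ha]
  rw [h1]
  set c := co e (x - co a x • a) with hc
  rw [co_sub, co_sub, co_smul, co_smul, co_self' ha]
  rw [sub_smul, sub_smul, smul_sub, smul_smul]
  have h3 : (co a x * 2) • a = co a x • a + co a x • a := by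
    rw [mul_comm, two_mul, add_smul]
  rw [h3]
  abel

section typeB

variable {k : ℕ} (hk : k + 2 < s) (hd : ∀ i j, i < j → j ≤ k → bt ν i ≠ bt ν j)
  (hrep : ∃ i ≤ k, bt ν i = bt ν (k + 1))
include hk hd hrep

theorem B_one {i : ℕ} (hi : i < k) : co (bt ν i) (ν i) = 1 :=
  C.one (by omega) (fun j hj => hd j i (by omega) (by omega)) (fun h => (hd i (i + 1) (by omega) (by omega)).symm)

theorem B_neg {i : ℕ} (hi : i < k) : co (bt ν i) (ν (i + 1)) = -1 := by
  rw [C.nu_succ i, co_sub, C.B_one hk hd hrep hi, co_self' (C.ne (C.bt_mem (by omega)))]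
  norm_num

theorem B_zero {j m : ℕ} (hj : j ≤ k) (hm : m ≤ k) (h1 : m ≠ j) (h2 : m ≠ j + 1) : co (bt ν j) (ν m) = 0 := by
  refine C.zero (C.bt_mem (by omega)) (by omega) ?_ ?_
  · intro _
    rcases lt_or_gt_of_ne h1 with h3 | h3
    · exact hd m j h3 hj
    · exact (hd j m h3 hm).symm
  · intro i hi
    have h3 : i ≠ j := by omega
    rcases lt_or_gt_of_ne h3 with h4 | h4
    · exact hd i j h4 hj
    · exact (hd j i h4 (by omega)).symm

theorem one_le_k : 1 ≤ k := by
  by_contra hk0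
  have hk0 : k = 0 := by omega
  subst hk0
  have h01 : bt ν 1 = bt ν 0 := by
    obtain ⟨i, hi, h⟩ := hrep
    have hi0 : i = 0 := by omega
    subst hi0
    exact h.symm
  have hz : ∀ b ∈ Δ, b ≠ bt ν 0 → co b (ν 0) = 0 ∧ co b (bt ν 0) = 0 := by
    intro b hb hne
    have h1 : co b (ν 0) = 0 := C.zero hb (by omega) (fun _ => hne.symm) (fun i hi => by omega)
    have h2 : co b (ν 1) = 0 := C.zero hb (by omega) (fun _ => by rw [h01]; exact hne.symm)
      (fun i hi => by
        have : i = 0 := by omega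
        rw [this]
        exact hne.symm)
    refine ⟨h1, ?_⟩
    change co b (ν 0 - ν 1) = 0
    rw [co_sub, h1, h2, sub_zero]
  have hall : ∀ j, j + 1 < s → bt ν j = bt ν 0 ∧ ν j = ν 0 - (j : ℝ) • bt ν 0 := by
    intro j
    induction j with
    | zero => intro _; simp
    | succ j ih =>
      intro hj
      obtain ⟨h1, h2⟩ := ih (by omega)
      have h3 : ν (j + 1) = ν 0 - ((j + 1 : ℕ) : ℝ) • bt ν 0 := by
        rw [C.nu_succ j, h1, h2]
        push_cast
        rw [add_smul, one_smul]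
        abel
      refine ⟨?_, h3⟩
      by_contra hne
      have h4 := C.R hj (fun i hi => by
        have : i = j := by omega
        rw [this, h1]
        exact fun h => hne h.symm)
      obtain ⟨h5, h6⟩ := hz _ (C.bt_mem hj) hne
      rw [h3, co_sub, co_smul, h5, h6] at h4
      norm_num at h4
  obtain ⟨c, hc, hcne⟩ : ∃ c ∈ Δ, c ≠ bt ν 0 := by
    by_contra hcon
    push Not at hcon
    have h1 : Δ ⊆ {bt ν 0} := fun c hc => Finset.mem_singleton.2 (hcon c hc)
    have h2 := Finset.card_le_card h1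
    have h3 := C.two
    rw [Finset.card_singleton] at h2
    omega
  obtain ⟨j, hj, h1⟩ := C.touch c hc
  refine h1 (C.zero hc hj (fun h => by rw [(hall j h).1]; exact hcne.symm) (fun i hi => by
    rw [(hall i (by omega)).1]; exact hcne.symm))

/-- the pairing at the turning point -/
theorem B_pq : (co (bt ν k) (ν k) = 2 ∧ co (bt ν (k - 1)) (bt ν k) = -1 ∨
      co (bt ν k) (ν k) = 1 ∧ co (bt ν (k - 1)) (bt ν k) = -2) ∧
    (bt ν (k + 1) = bt ν k ∨ bt ν (k + 1) = bt ν (k - 1)) := by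
  have hk1 := C.one_le_k hk hd hrep
  obtain ⟨k', rfl⟩ : ∃ k', k = k' + 1 := ⟨k - 1, by omega⟩
  rw [Nat.add_sub_cancel]
  have hb := C.bt_mem (j := k' + 1) (by omega)
  have hb' := C.bt_mem (j := k') (by omega)
  have hne : bt ν k' ≠ bt ν (k' + 1) := hd k' (k' + 1) (by omega) le_rfl
  have hR : 1 ≤ co (bt ν (k' + 1)) (ν (k' + 1)) := C.R (by omega) (fun i hi => by
    have : i = k' := by omega
    rw [this]; exact hne)
  obtain ⟨p, hp⟩ := C.intν _ hb (k' + 1) (by omega)
  have h1 : co (bt ν (k' + 1)) (bt ν k') = -(p : ℝ) := by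
    change co (bt ν (k' + 1)) (ν k' - ν (k' + 1)) = -(p : ℝ)
    rw [co_sub, C.B_zero hk hd hrep le_rfl (by omega) (by omega) (by omega), hp, zero_sub]
  obtain ⟨q, hq⟩ := C.int _ (C.sub hb') _ (C.sub hb)
  -- Cauchy-Schwarz
  have ha0 : (0 : ℝ) < inner ℝ (bt ν k') (bt ν k') := real_inner_self_pos.2 (C.ne hb')
  have hb0 : (0 : ℝ) < inner ℝ (bt ν (k' + 1)) (bt ν (k' + 1)) := real_inner_self_pos.2 (C.ne hb)
  have i1 := inner_eq (C.ne hb) (bt ν k')
  have i2 := inner_eq (C.ne hb') (bt ν (k' + 1))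
  rw [h1] at i1
  rw [hq, real_inner_comm] at i2
  set A : ℝ := inner ℝ (bt ν k') (bt ν k') with hA
  set B : ℝ := inner ℝ (bt ν (k' + 1)) (bt ν (k' + 1)) with hB
  set X : ℝ := inner ℝ (bt ν k') (bt ν (k' + 1)) with hX
  have hcs : X * X < A * B := by
    refine lt_of_le_of_ne (real_inner_mul_inner_self_le _ _) ?_
    intro heq
    have h3 : inner ℝ (A • bt ν (k' + 1) - X • bt ν k') (A • bt ν (k' + 1) - X • bt ν k') = (0 : ℝ) := by
      rw [inner_sub_left, inner_sub_right, inner_sub_right, inner_smul_left, inner_smul_right, inner_smul_left,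
        inner_smul_right, inner_smul_left, inner_smul_right, inner_smul_left, inner_smul_right]
      simp only [conj_trivial]
      rw [real_inner_comm (bt ν k') (bt ν (k' + 1)), ← hA, ← hB, ← hX]
      linear_combination -A * heq
    have h4 : A • bt ν (k' + 1) = X • bt ν k' := sub_eq_zero.1 (inner_self_eq_zero.1 h3)
    have h5 := congrArg lev h4
    rw [map_smul, map_smul, C.lev_one _ hb, C.lev_one _ hb', smul_eq_mul, smul_eq_mul, mul_one, mul_one] at h5
    rw [← h5] at h4
    exact hne (smul_right_injective E ha0.ne' h4).symm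
  rw [hp] at hR
  have hp1 : 1 ≤ p := by exact_mod_cast hR
  have hX0 : X < 0 := by nlinarith
  have hq1 : q ≤ -1 := by
    by_contra hcon
    have : 0 ≤ q := by omega
    have : (0 : ℝ) ≤ q := by exact_mod_cast this
    nlinarith
  have hpq : (p : ℝ) * (-q) < 4 := by
    have h3 : (p : ℝ) * (-q) * (A * B) = 4 * (X * X) := by
      nth_rewrite 1 [i1]
      nth_rewrite 1 [i2]
      ring
    by_contra hcon
    push Not at hcon
    have h4 : 4 * (A * B) ≤ (p : ℝ) * (-q) * (A * B) := mul_le_mul_of_nonneg_right hcon (mul_pos ha0 hb0).le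
    linarith
  have hpq' : p * (-q) < 4 := by exact_mod_cast hpq
  have hp3 : p ≠ 3 := by
    rintro rfl
    exact C.no3 _ hb _ hb' (by rw [h1]; norm_num)
  have hq3 : q ≠ -3 := by
    rintro rfl
    exact C.no3 _ hb' _ hb (by rw [hq]; norm_num)
  have hp4 : p < 4 := by nlinarith
  have hq4 : -4 < q := by nlinarith
  obtain ⟨i, hi, hrep⟩ := hrep
  rcases Nat.lt_or_ge i (k' + 1) with h5 | h5
  swap
  · -- equal to the last one
    have hi' : i = k' + 1 := by omega
    subst hi'
    have hp2 : p ≠ 1 := by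
      rintro rfl
      obtain ⟨m, hm, h6⟩ := C.reflν _ hb (k' + 1 + 2) hk
      have h7 : ν (k' + 1 + 2) = ν (k' + 1) - (2 : ℝ) • bt ν (k' + 1) := by
        rw [C.nu_succ (k' + 1 + 1), ← hrep, C.nu_succ (k' + 1), two_smul]
        abel
      have h8 : ν m = ν (k' + 1) + bt ν (k' + 1) := by
        rw [← h6, h7, co_sub, co_smul, hp, co_self' (C.ne hb)]
        push_cast
        rw [show ((1 : ℝ) - 2 * 2) = -3 by norm_num, neg_smul,
          show (3 : ℝ) • bt ν (k' + 1) = (2 : ℝ) • bt ν (k' + 1) + bt ν (k' + 1) by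
            rw [show (3 : ℝ) = 2 + 1 by norm_num, add_smul, one_smul]]
        abel
      have h9 : k' + 1 = m + 1 := by
        refine C.idx hm (by omega) (t := 1) ?_
        rw [h8, map_add, C.lev_one _ hb]
        norm_num
      have h10 : m = k' := by omega
      subst h10
      apply hne
      change ν m - ν (m + 1) = bt ν (m + 1)
      rw [h8]
      abel
    have hp' : p = 2 := by omega
    have hq' : q = -1 := by
      subst hp'
      omega
    refine ⟨Or.inl ⟨by rw [hp, hp']; norm_num, by rw [hq, hq']; norm_num⟩, Or.inl hrep.symm⟩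
  · have h6 := C.R (j := k' + 1 + 1) (by omega) (fun j hj => by
      have : j = k' + 1 := by omega
      rw [this, ← hrep]
      exact (hd i (k' + 1) h5 le_rfl).symm)
    rw [← hrep] at h6
    have h7 : co (bt ν i) (ν (k' + 1 + 1)) = co (bt ν i) (ν (k' + 1)) - co (bt ν i) (bt ν (k' + 1)) := by
      rw [← co_sub, C.nu_succ (k' + 1)]
    have hik : i = k' := by
      by_contra hik
      have h8 : co (bt ν (k' + 1)) (bt ν i) = 0 := by
        change co (bt ν (k' + 1)) (ν i - ν (i + 1)) = 0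
        rw [co_sub, C.B_zero hk hd ⟨i, hi, hrep⟩ le_rfl (by omega) (by omega) (by omega),
          C.B_zero hk hd ⟨i, hi, hrep⟩ le_rfl (by omega) (by omega) (by omega), sub_zero]
      rw [h7, co_zero_symm (C.ne hb) h8, C.B_zero hk hd ⟨i, hi, hrep⟩ (by omega) le_rfl (by omega) (by omega)] at h6
      norm_num at h6
    subst hik
    rw [h7, C.B_neg hk hd ⟨i, hi, hrep⟩ (by omega), hq] at h6
    have hq2 : q ≤ -2 := by
      have : (q : ℝ) ≤ -2 := by linarith
      exact_mod_cast this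
    have hq' : q = -2 := by omega
    have hp' : p = 1 := by
      subst hq'
      omega
    refine ⟨Or.inr ⟨by rw [hp, hp']; norm_num, by rw [hq, hq']; norm_num⟩, Or.inr hrep.symm⟩

end typeB

end Chain

/-- the data at the turning point -/
structure Turn (Φ Δ : Finset E) (s : ℕ) (ν : ℕ → E) (lev : E →ₗ[ℝ] ℝ) (k p : ℕ) (τ : E) : Prop
    extends Chain Φ Δ s ν lev where
  hk : k + 2 < s
  k1 : 1 ≤ k
  hp : p = 1 ∨ p = 2
  one : ∀ i < k, co (bt ν i) (ν i) = 1
  neg1 : ∀ i < k, co (bt ν i) (ν (i + 1)) = -1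
  zer : ∀ j ≤ k, ∀ m ≤ k, m ≠ j → m ≠ j + 1 → co (bt ν j) (ν m) = 0
  pk : co (bt ν k) (ν k) = p
  tau : τ = ν k - ((p : ℝ) / 2) • bt ν k
  orth : ∀ b ∈ Δ, co b τ = 0

theorem Chain.exists_turn (C : Chain Φ Δ s ν lev) {k : ℕ} (hk : k + 2 < s) (hd : ∀ i j, i < j → j ≤ k → bt ν i ≠ bt ν j)
    (hrep : ∃ i ≤ k, bt ν i = bt ν (k + 1)) : ∃ (p : ℕ) (τ : E), Turn Φ Δ s ν lev k p τ := by
  have hk1 := C.one_le_k hk hd hrep
  obtain ⟨hpq, hrep'⟩ := C.B_pq hk hd hrep
  have hb := C.bt_mem (j := k) (by omega)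
  have hb' := C.bt_mem (j := k - 1) (by omega)
  have hne : bt ν (k - 1) ≠ bt ν k := hd (k - 1) k (by omega) le_rfl
  obtain ⟨p, q, hp, hp1, hq1, hpq2⟩ : ∃ (p : ℕ) (q : ℝ), (p = 1 ∨ p = 2) ∧ co (bt ν k) (ν k) = p ∧
      co (bt ν (k - 1)) (bt ν k) = -q ∧ (p : ℝ) * q = 2 := by
    rcases hpq with ⟨h1, h2⟩ | ⟨h1, h2⟩
    · exact ⟨2, 1, Or.inr rfl, by rw [h1]; norm_num, h2, by norm_num⟩
    · exact ⟨1, 2, Or.inl rfl, by rw [h1]; norm_num, h2, by norm_num⟩
  refine ⟨p, _, ⟨C, hk, hk1, hp, fun i hi => C.B_one hk hd hrep hi, fun i hi => C.B_neg hk hd hrep hi,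
    fun j hj m hm h1 h2 => C.B_zero hk hd hrep hj hm h1 h2, hp1, rfl, ?_⟩⟩
  intro b hbD
  rw [co_sub, co_smul]
  by_cases h1 : b = bt ν k
  · rw [h1, hp1, co_self' (C.ne hb)]
    ring
  by_cases h2 : b = bt ν (k - 1)
  · have h3 : co (bt ν (k - 1)) (ν k) = -1 := by
      have := C.B_neg hk hd hrep (i := k - 1) (by omega)
      rwa [Nat.sub_add_cancel hk1] at this
    rw [h2, h3, hq1]
    linarith
  have h3 : co b (ν k) = 0 := C.zero hbD (by omega) (fun _ h => h1 h.symm) (fun i hi h => by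
    have : i = k - 1 := by omega
    rw [this] at h
    exact h2 h.symm)
  have h4 : co b (bt ν k) = 0 := by
    change co b (ν k - ν (k + 1)) = 0
    have h5 : co b (ν (k + 1)) = 0 := C.zero hbD (by omega) (fun _ h => by
      rcases hrep' with h6 | h6
      · exact h1 (h.symm.trans h6)
      · exact h2 (h.symm.trans h6)) (fun i hi h => by
      have : i = k := by omega
      rw [this] at h
      exact h1 h.symm)
    rw [co_sub, h3, h5, sub_zero]
  rw [h3, h4]
  ring

namespace Turn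

variable {k p : ℕ} {τ : E} (T : Turn Φ Δ s ν lev k p τ)
include T

theorem p0 : (0 : ℝ) < p := by
  rcases T.hp with h | h <;> rw [h] <;> norm_num

theorem inner_tau {b : E} (hb : b ∈ Δ) : inner ℝ τ b = (0 : ℝ) := by
  rw [inner_eq (T.toChain.ne hb), T.orth b hb]
  ring

theorem e_k : ν k - τ = ((p : ℝ) / 2) • bt ν k := by
  rw [T.tau]
  abel

theorem e_succ (i : ℕ) : ν i - τ = (ν (i + 1) - τ) + bt ν i := by
  unfold bt
  abel

theorem inner_e_bt {i j : ℕ} (hi : i ≤ k) (hj : j ≤ k) (h1 : i ≠ j) (h2 : i ≠ j + 1) :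
    inner ℝ (ν i - τ) (bt ν j) = (0 : ℝ) := by
  have hb := T.toChain.bt_mem (j := j) (by have := T.hk; omega)
  rw [inner_sub_left, T.inner_tau hb, sub_zero, inner_eq (T.toChain.ne hb), T.zer j hj i hi h1 h2]
  ring

theorem inner_e (m : ℕ) : ∀ i, i + m < k → inner ℝ (ν i - τ) (ν (k - m) - τ) = (0 : ℝ) := by
  induction m with
  | zero =>
    intro i hi
    rw [Nat.sub_zero, T.e_k, inner_smul_right, T.inner_e_bt (by omega) le_rfl (by omega) (by omega), mul_zero]
  | succ m ih =>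
    intro i hi
    have e1 : k - (m + 1) + 1 = k - m := by omega
    rw [T.e_succ (k - (m + 1)), e1, inner_add_right, ih i (by omega),
      T.inner_e_bt (by omega) (by omega) (by omega) (by omega), add_zero]

theorem inner_e' {i j : ℕ} (hi : i ≤ k) (hj : j ≤ k) (hij : i ≠ j) : inner ℝ (ν i - τ) (ν j - τ) = (0 : ℝ) := by
  rcases lt_or_gt_of_ne hij with h | h
  · have := T.inner_e (k - j) i (by omega)
    rwa [show k - (k - j) = j by omega] at this
  · have := T.inner_e (k - i) j (by omega)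
    rw [show k - (k - i) = i by omega] at this
    rw [real_inner_comm]
    exact this

theorem e_refl {i : ℕ} (hi : i < k) : (ν (i + 1) - τ) - co (bt ν i) (ν (i + 1) - τ) • bt ν i = ν i - τ := by
  have hb := T.toChain.bt_mem (j := i) (by have := T.hk; omega)
  rw [co_sub, T.neg1 i hi, T.orth _ hb, sub_zero, neg_smul, one_smul, T.e_succ i]
  abel

theorem norm_e (m : ℕ) (hm : m ≤ k) :
    inner ℝ (ν (k - m) - τ) (ν (k - m) - τ) = ((p : ℝ) / 2) ^ 2 * inner ℝ (bt ν k) (bt ν k) := by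
  induction m with
  | zero =>
    rw [Nat.sub_zero, T.e_k, inner_smul_left, inner_smul_right]
    simp only [conj_trivial]
    ring
  | succ m ih =>
    have e1 : k - (m + 1) + 1 = k - m := by omega
    have h1 := T.e_refl (i := k - (m + 1)) (by omega)
    rw [e1] at h1
    rw [← h1, inner_refl' (T.toChain.ne (T.toChain.bt_mem (by have := T.hk; omega))), ih (by omega)]

theorem norm_e' {i : ℕ} (hi : i ≤ k) :
    inner ℝ (ν i - τ) (ν i - τ) = ((p : ℝ) / 2) ^ 2 * inner ℝ (bt ν k) (bt ν k) := by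
  have := T.norm_e (k - i) (by omega)
  rwa [show k - (k - i) = i by omega] at this

theorem l_pos : (0 : ℝ) < ((p : ℝ) / 2) ^ 2 * inner ℝ (bt ν k) (bt ν k) := by
  have h1 : (0 : ℝ) < inner ℝ (bt ν k) (bt ν k) :=
    real_inner_self_pos.2 (T.toChain.ne (T.toChain.bt_mem (by have := T.hk; omega)))
  have h2 := T.p0
  positivity

theorem e_ne {i : ℕ} (hi : i ≤ k) : ν i - τ ≠ 0 := by
  intro h
  have h1 := T.norm_e' hi
  rw [h, inner_zero_left] at h1
  have := T.l_pos
  linarith

theorem tau_e (m : ℕ) (hm : m ≤ k) : inner ℝ τ (ν (k - m) - τ) = (0 : ℝ) := by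
  induction m with
  | zero =>
    rw [Nat.sub_zero, T.e_k, inner_smul_right, T.inner_tau (T.toChain.bt_mem (by have := T.hk; omega)), mul_zero]
  | succ m ih =>
    have e1 : k - (m + 1) + 1 = k - m := by omega
    rw [T.e_succ (k - (m + 1)), e1, inner_add_right, ih (by omega),
      T.inner_tau (T.toChain.bt_mem (by have := T.hk; omega)), add_zero]

theorem tau_e' {i : ℕ} (hi : i ≤ k) : inner ℝ τ (ν i - τ) = (0 : ℝ) := by
  have := T.tau_e (k - i) (by omega)
  rwa [show k - (k - i) = i by omega] at this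

/-- the reflections in the `e i` preserve the chain -/
theorem refl_e (m : ℕ) (hm : m ≤ k) : ∀ j < s, ∃ j' < s,
    ν j - co (ν (k - m) - τ) (ν j) • (ν (k - m) - τ) = ν j' := by
  induction m with
  | zero =>
    intro j hj
    obtain ⟨j', hj', h1⟩ := T.reflν _ (T.toChain.bt_mem (j := k) (by have := T.hk; omega)) j hj
    refine ⟨j', hj', ?_⟩
    rw [← h1, Nat.sub_zero, T.e_k]
    have hp0 : (p : ℝ) ≠ 0 := T.p0.ne'
    have h2 : co (((p : ℝ) / 2) • bt ν k) (ν j) • (((p : ℝ) / 2) • bt ν k) = co (bt ν k) (ν j) • bt ν k := by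
      rw [smul_smul]
      congr 1
      have hb0 : (0 : ℝ) < inner ℝ (bt ν k) (bt ν k) :=
        real_inner_self_pos.2 (T.toChain.ne (T.toChain.bt_mem (by have := T.hk; omega)))
      unfold co
      rw [inner_smul_left, inner_smul_right, inner_smul_right]
      simp only [conj_trivial]
      field_simp
    rw [h2]
  | succ m ih =>
    intro j hj
    have e1 : k - (m + 1) + 1 = k - m := by omega
    have hb := T.toChain.bt_mem (j := k - (m + 1)) (by have := T.hk; omega)
    obtain ⟨j1, hj1, h1⟩ := T.reflν _ hb j hj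
    obtain ⟨j2, hj2, h2⟩ := ih (by omega) j1 hj1
    obtain ⟨j3, hj3, h3⟩ := T.reflν _ hb j2 hj2
    refine ⟨j3, hj3, ?_⟩
    have h4 := T.e_refl (i := k - (m + 1)) (by omega)
    rw [e1] at h4
    rw [← h3, ← h2, ← h1, Chain.refl_conj (T.toChain.ne hb), h4]

theorem refl_e' {i : ℕ} (hi : i ≤ k) : ∀ j < s, ∃ j' < s, ν j - co (ν i - τ) (ν j) • (ν i - τ) = ν j' := by
  have := T.refl_e (k - i) (by omega)
  rwa [show k - (k - i) = i by omega] at this

theorem lev_e (m : ℕ) (hm : m ≤ k) : lev (ν (k - m) - τ) = m + (p : ℝ) / 2 := by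
  induction m with
  | zero =>
    rw [Nat.sub_zero, T.e_k, map_smul, T.lev_one _ (T.toChain.bt_mem (by have := T.hk; omega))]
    simp
  | succ m ih =>
    have e1 : k - (m + 1) + 1 = k - m := by omega
    rw [T.e_succ (k - (m + 1)), e1, map_add, ih (by omega),
      T.lev_one _ (T.toChain.bt_mem (by have := T.hk; omega))]
    push_cast
    ring

theorem lev_e' {i : ℕ} (hi : i ≤ k) : lev (ν i - τ) = ((k - i : ℕ) : ℝ) + (p : ℝ) / 2 := by
  have := T.lev_e (k - i) (by omega)
  rwa [show k - (k - i) = i by omega] at this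

/-- the opposite of `τ + e i` -/
theorem opp {i : ℕ} (hi : i ≤ k) : 2 * k + p - i < s ∧ ν (2 * k + p - i) = τ - (ν i - τ) := by
  have hks := T.hk
  obtain ⟨j, hj, h1⟩ := T.refl_e' hi i (by omega)
  have h2 : co (ν i - τ) (ν i) = 2 := by
    have h3 : co (ν i - τ) (ν i) = co (ν i - τ) (ν i - τ) + co (ν i - τ) τ := by
      rw [← co_add]
      congr 1
      abel
    have h4 : co (ν i - τ) τ = 0 := by
      unfold co
      rw [T.tau_e' hi]
      simp
    rw [h3, co_self' (T.e_ne hi), h4, add_zero]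
  rw [h2] at h1
  have h3 : ν j = τ - (ν i - τ) := by
    rw [← h1, two_smul]
    abel
  have h4 : j = i + (2 * (k - i) + p) := by
    refine T.toChain.idx (by omega) hj ?_
    rw [h3]
    have h5 : τ - (ν i - τ) = ν i - ((ν i - τ) + (ν i - τ)) := by abel
    rw [h5, map_sub, map_add, T.lev_e' hi]
    push_cast
    ring
  have h5 : j = 2 * k + p - i := by omega
  rw [← h5]
  exact ⟨hj, h3⟩

/-- the chain is symmetric -/
theorem s_eq : s = 2 * k + p + 1 := by
  have hks := T.hk
  have hk1 := T.k1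
  obtain ⟨hJ, hJ'⟩ := T.opp (i := 0) (by omega)
  rw [Nat.sub_zero] at hJ hJ'
  by_contra hne
  have hJ1 : 2 * k + p + 1 < s := by omega
  have hb := T.toChain.bt_mem hJ1
  set b := bt ν (2 * k + p) with hbdef
  obtain ⟨K, hK, h1⟩ := T.refl_e' (i := 0) (by omega) _ hJ1
  have h2 : ν (2 * k + p + 1) = τ - (ν 0 - τ) - b := by
    rw [T.toChain.nu_succ, hJ']
  set e0 := ν 0 - τ with he0
  have he0n : e0 ≠ 0 := T.e_ne (by omega)
  set c := co e0 b with hc
  have h3 : co e0 τ = 0 := by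
    unfold co
    rw [T.tau_e' (by omega)]
    simp
  rw [h2, co_sub, co_sub, h3, co_self' he0n, ← hc] at h1
  have h4 : ν K = ν 0 - b + c • e0 := by
    rw [← h1]
    have : τ = ν 0 - e0 := by rw [he0]; abel
    rw [this, show (0 - 2 - c : ℝ) = -(2 + c) by ring, neg_smul, add_smul, two_smul]
    abel
  have hlev0 : lev e0 = (k : ℝ) + (p : ℝ) / 2 := by
    rw [he0, T.lev_e' (by omega), Nat.sub_zero]
  have h5 : lev (ν K) = lev (ν 0) - 1 + c * ((k : ℝ) + (p : ℝ) / 2) := by
    rw [h4, map_add, map_sub, map_smul, T.lev_one _ hb, hlev0, smul_eq_mul]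
  have h6 : lev (ν K) = lev (ν 0) - K := T.toChain.lev_nu hK
  have hc0 : inner ℝ b e0 = (inner ℝ (ν 0) b : ℝ) := by
    rw [he0, inner_sub_right, real_inner_comm τ b, T.inner_tau hb, sub_zero, real_inner_comm]
  have hcoe : co b (ν 0) = 0 ∨ 0 < co b (ν 0) := by
    rcases lt_trichotomy (co b (ν 0)) 0 with h | h | h
    · obtain ⟨i, hi, _⟩ := T.toChain.neg hb (by omega) h
      omega
    · exact Or.inl h
    · exact Or.inr h
  rcases hcoe with h7 | h7
  · have h8 : c = 0 := by
      rw [hc]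
      unfold co
      rw [hc0, inner_eq (T.toChain.ne hb), h7]
      simp
    have h9 : K = 1 := by
      rw [h8] at h5
      have : (K : ℝ) = 1 := by linarith
      exact_mod_cast this
    subst h9
    rw [h8, zero_smul, add_zero] at h4
    have h10 : bt ν 0 = b := by
      unfold bt
      rw [h4]
      abel
    rw [← h10, T.one 0 (by omega)] at h7
    norm_num at h7
  · obtain ⟨-, h8⟩ := T.toChain.pos hb (by omega) h7
    have h9 : b = e0 - (ν 1 - τ) := by
      rw [← h8, he0]
      unfold bt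
      abel
    have h10 : c = 2 := by
      rw [hc]
      nth_rewrite 1 [h9]
      rw [co_sub, co_self' he0n]
      have : co e0 (ν 1 - τ) = 0 := by
        unfold co
        rw [he0, T.inner_e' (by omega) (by omega) (by omega)]
        simp
      rw [this, sub_zero]
    rw [h10, h6] at h5
    have hkR : (1 : ℝ) ≤ k := by exact_mod_cast hk1
    have hpR := T.p0
    have hKR : (0 : ℝ) ≤ K := Nat.cast_nonneg K
    linarith

theorem p_two : p = 2 := by
  have h1 := T.s_eq
  have h2 := T.odd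
  rcases T.hp with h | h
  · exfalso
    rw [h1, h] at h2
    rw [Nat.odd_iff] at h2
    omega
  · exact h

theorem e_k' : ν k - τ = bt ν k := by
  rw [T.e_k, T.p_two]
  norm_num

theorem root_e (m : ℕ) (hm : m ≤ k) : ν (k - m) - τ ∈ Φ := by
  induction m with
  | zero =>
    rw [Nat.sub_zero, T.e_k']
    exact T.sub (T.toChain.bt_mem (by have := T.hk; omega))
  | succ m ih =>
    have e1 : k - (m + 1) + 1 = k - m := by omega
    have h4 := T.e_refl (i := k - (m + 1)) (by omega)
    rw [e1] at h4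
    rw [← h4]
    exact T.refl _ (T.sub (T.toChain.bt_mem (by have := T.hk; omega))) _ (ih (by omega))

theorem root_e' {i : ℕ} (hi : i ≤ k) : ν i - τ ∈ Φ := by
  have := T.root_e (k - i) (by omega)
  rwa [show k - (k - i) = i by omega] at this

theorem neg_root {a : E} (ha : a ∈ Φ) : -a ∈ Φ := by
  have h1 := T.refl a ha a ha
  rw [co_self' (T.ne_zero a ha), two_smul] at h1
  have h2 : -a = a - (a + a) := by abel
  rw [h2]
  exact h1

theorem root_diff (m : ℕ) : ∀ i, i + m + 1 ≤ k → ν i - ν (i + m + 1) ∈ Φ := by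
  induction m with
  | zero => intro i hi; exact T.sub (T.toChain.bt_mem (by have := T.hk; omega))
  | succ m ih =>
    intro i hi
    have h1 := ih (i + 1) (by omega)
    have hb := T.toChain.bt_mem (j := i) (by have := T.hk; omega)
    have h2 := T.refl _ (T.sub hb) _ h1
    have e1 : i + 1 + m + 1 = i + (m + 1) + 1 := by ring
    rw [e1] at h2
    rw [co_sub, T.neg1 i (by omega), T.zer i (by omega) _ hi (by omega) (by omega)] at h2
    have e2 : ν (i + 1) - ν (i + (m + 1) + 1) - (-1 - 0 : ℝ) • bt ν i = ν i - ν (i + (m + 1) + 1) := by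
      rw [T.toChain.nu_succ i, sub_zero, neg_smul, one_smul]
      abel
    rwa [e2] at h2

theorem isB : IsB Φ s ν := by
  have hks := T.hk
  have hk1 := T.k1
  have hp2 := T.p_two
  have hs := T.s_eq
  refine ⟨k + 1, τ, fun i => ν i - τ, _, by omega, by omega, T.l_pos, ?_, ?_, ?_, ?_, ?_, ?_, ?_⟩
  · intro i hi j hj
    by_cases hij : i = j
    · subst hij
      rw [if_pos rfl]
      exact T.norm_e' (by omega)
    · rw [if_neg hij]
      exact T.inner_e' (by omega) (by omega) hij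
  · intro i hi
    exact T.tau_e' (by omega)
  · intro i hi
    exact ⟨T.root_e' (by omega), T.neg_root (T.root_e' (by omega))⟩
  · have hdiff : ∀ i ≤ k, ∀ j ≤ k, i ≠ j → (ν i - τ) - (ν j - τ) ∈ Φ := by
      intro i hi j hj hij
      have e : (ν i - τ) - (ν j - τ) = ν i - ν j := by abel
      rw [e]
      rcases lt_or_gt_of_ne hij with h | h
      · obtain ⟨m, rfl⟩ := Nat.exists_eq_add_of_lt h
        exact T.root_diff m i hj
      · obtain ⟨m, rfl⟩ := Nat.exists_eq_add_of_lt h
        have h1 := T.neg_root (T.root_diff m j hi)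
        have e2 : ν (j + m + 1) - ν j = -(ν j - ν (j + m + 1)) := by abel
        rw [e2]
        exact h1
    have hsum : ∀ i ≤ k, ∀ j ≤ k, i ≠ j → (ν i - τ) + (ν j - τ) ∈ Φ := by
      intro i hi j hj hij
      have h1 := T.refl _ (T.root_e' hj) _ (hdiff i hi j hj hij)
      have h2 : co (ν j - τ) ((ν i - τ) - (ν j - τ)) = -2 := by
        rw [co_sub, co_self' (T.e_ne hj)]
        have : co (ν j - τ) (ν i - τ) = 0 := by
          unfold co
          rw [T.inner_e' hi hj hij]
          simp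
        rw [this]
        norm_num
      rw [h2, neg_smul, two_smul] at h1
      have e : (ν i - τ) + (ν j - τ) = ν i - τ - (ν j - τ) - -(ν j - τ + (ν j - τ)) := by abel
      rw [e]
      exact h1
    intro i hi j hj hij
    exact ⟨hsum i (by omega) j (by omega) hij, hdiff i (by omega) j (by omega) hij,
      T.neg_root (hsum i (by omega) j (by omega) hij)⟩
  · intro i hi
    exact (add_sub_cancel τ (ν i)).symm
  · rw [T.toChain.nu_succ k, ← T.e_k']
    abel
  · intro i hi
    have h1 := (T.opp (i := i) (by omega)).2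
    rw [hp2] at h1
    rw [show 2 * (k + 1) - i = 2 * k + 2 - i by omega]
    exact h1

end Turn

/-- **P2**: the walk -/
theorem Chain.isA_or_isB (C : Chain Φ Δ s ν lev) : IsA Φ s ν ∨ IsB Φ s ν := by
  classical
  by_cases hall : ∀ i j, i < j → j + 1 < s → bt ν i ≠ bt ν j
  · exact Or.inl (C.isA hall)
  right
  push Not at hall
  have hex : ∃ j, ∃ i, i < j ∧ j + 1 < s ∧ bt ν i = bt ν j := by
    obtain ⟨i, j, h1, h2, h3⟩ := hall
    exact ⟨j, i, h1, h2, h3⟩
  obtain ⟨i, h1, h2, h3⟩ := Nat.find_spec hex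
  have hmin := fun m (hm : m < Nat.find hex) => Nat.find_min hex hm
  set j := Nat.find hex with hj
  obtain ⟨k, hk⟩ : ∃ k, j = k + 1 := ⟨j - 1, by omega⟩
  rw [hk] at h1 h2 h3 hmin
  obtain ⟨p, τ, T⟩ := C.exists_turn (k := k) h2 (fun a b hab hb heq => by
    refine hmin b (by omega) ⟨a, hab, by omega, heq⟩) ⟨i, by omega, h3⟩
  exact T.isB

end PG
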