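import Pool.Agent.Helper55.PG.ThreeK
import Pool.Agent.Helper21.PF.Gal
import Pool.Agent.Helper71.OW.Semi
import Pool.Agent.Helper54.EL.Abs
import Pool.Agent.Helper5.EL.MTle

/-!
Project PG (MP_b8862a_ag): the theorem on Hodge structures with three Hodge numbers `s, h, s`, from the theorem on Lie
subalgebras of endomorphisms.
-/

set_option linter.unusedSectionVars false

open Matrix Module

attribute [local instance 100] LieRing.ofAssociativeRing

namespace MH

variable {n : Type*} [Fintype n] [DecidableEq n]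

open scoped ComplexOrder in
theorem rank_conj55 (A : Matrix n n ℂ) : (A.map (starRingEnd ℂ)).rank = A.rank := by
  have h1 : A.map (starRingEnd ℂ) = Aᴴᵀ := by
    ext i j
    rfl
  rw [h1, Matrix.rank_transpose, Matrix.rank_conjTranspose]

/-- the sum of the Hodge numbers is the dimension -/
theorem IsHS.sum_rank55 {m : ℤ} {Q : Matrix n n ℚ} {S : Finset ℤ} {P : ℤ → Matrix n n ℂ} (H : IsHS m Q S P) :
    ∑ p ∈ S, (P p).rank = Fintype.card n := by
  have h1 : ((∑ p ∈ S, (P p).rank : ℕ) : ℂ) = (Fintype.card n : ℂ) := by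
    rw [Nat.cast_sum, ← Matrix.trace_one, ← H.sum, Matrix.trace_sum]
    refine Finset.sum_congr rfl fun p _ => ?_
    rw [trace_eq_rank (by rw [H.mul, if_pos rfl])]
  exact_mod_cast h1

/-- `Γ` is semisimple and only the scalars commute with a subgroup of finite index. -/
def SemiEnd {F : Type*} [Field F] (Γ : Subgroup (GL n F)) : Prop :=
  SemiS Γ ∧ ∀ Γ' : Subgroup (GL n F), Γ' ≤ Γ → Γ'.relIndex Γ ≠ 0 →
    ∀ T : Matrix n n F, (∀ g ∈ Γ', (g : Matrix n n F) * T = T * (g : Matrix n n F)) →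
      ∃ c : F, T = c • (1 : Matrix n n F)

theorem prime_genus_of {m : ℤ} {Q : Matrix n n ℚ} {S : Finset ℤ} {P : ℤ → Matrix n n ℂ} (H : IsHS m Q S P)
    (hEnd : ∀ A : Matrix n n ℚ, (∀ p, toC A * P p = P p * toC A) → ∃ c : ℚ, A = c • (1 : Matrix n n ℚ))
    {k : ℤ} (hk : 0 < k) {s h : ℕ} (hs : s.Prime) (h1 : (P (m + k)).rank = s) (h0 : (P m).rank = h)
    (hP : ∀ p, p ≠ m + k → p ≠ m → p ≠ m - k → P p = 0) (e3 : h + 2 * s ≠ s ^ 2) (e4 : h ≠ 2 * s)
    (core : ∀ ω : LinearMap.BilinForm ℂ (n → ℂ), ω.IsSymm → ω.Nondegenerate →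
      ∀ L : LieSubalgebra ℂ (Module.End ℂ (n → ℂ)), LieAlgebra.IsSimple ℂ L →
      (∀ W : Submodule ℂ (n → ℂ), (∀ x ∈ L, ∀ u ∈ W, x u ∈ W) → W = ⊥ ∨ W = ⊤) →
      (∀ x ∈ L, ∀ u v, ω (x u) v = -ω u (x v)) →
      ∀ y ∈ L, (⨆ c : ℂ, Module.End.eigenspace y c) = ⊤ →
        (∀ c : ℂ, Module.End.eigenspace y c ≠ ⊥ → c = 0 ∨ c = 1 ∨ c = -1) →
        finrank ℂ (Module.End.eigenspace y 1) = s → finrank ℂ (Module.End.eigenspace y 0) = h →
        ∀ x : Module.End ℂ (n → ℂ), (∀ u v, ω (x u) v = -ω u (x v)) → x ∈ L) :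
    (∀ g : GL n ℂ, g ∈ MT S P ↔ ∃ z : ℂ, (m = 0 → z = 1) ∧
      (g : Matrix n n ℂ)ᵀ * toC Q * (g : Matrix n n ℂ) = z ^ 2 • toC Q ∧
        (g : Matrix n n ℂ).det = z ^ Fintype.card n) ∧
    (¬ s ∣ h → ∀ (ℓ : ℕ) [Fact ℓ.Prime] (ι : ℚ_[ℓ] →+* ℂ) (Γ : Subgroup (GL n ℚ_[ℓ])) (R : ℤ → Matrix n n ℂ),
      IsGal m Q S P (Γ.map (Matrix.GeneralLinearGroup.map ι)) R → SemiEnd Γ →
      ∀ (a b : ℕ) (t : (Fin a ⊕ Fin b → n) → ℂ),
        IsTateTensor (Γ.map (Matrix.GeneralLinearGroup.map ι)) a b t ↔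
          ∀ g ∈ MT S P, actF (slot a b (g : Matrix n n ℂ) ((g⁻¹ : GL n ℂ) : Matrix n n ℂ)) t = t) := by
  have r1 : (fun p => (P p).rank) (m + k) = s := h1
  have r0 : (fun p => (P p).rank) m = h := h0
  have rr : ∀ p, p ≠ m + k → p ≠ m → p ≠ m - k → (fun p => (P p).rank) p = 0 := by
    intro p h2 h3 h4
    simp only [hP p h2 h3 h4, Matrix.rank_zero]
  have h1' : (P (m - k)).rank = s := by
    have h2 := H.conj (m + k)
    rw [show 2 * m - (m + k) = m - k by ring] at h2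
    rw [← h2, rank_conj55, h1]
  have hs2 := hs.two_le
  have hcard : Fintype.card n = 2 * s + h := by
    have hS : ∀ p, (P p).rank ≠ 0 → p ∈ S := by
      intro p hp
      by_contra hcon
      rw [H.supp p hcon, Matrix.rank_zero] at hp
      exact hp rfl
    have e1 : ∑ p ∈ S, (P p).rank = ∑ p ∈ ({m + k, m - k, m} : Finset ℤ), (P p).rank := by
      apply Finset.sum_congr_of_eq_on_inter
      · intro p _ hp
        simp only [Finset.mem_insert, Finset.mem_singleton, not_or] at hp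
        rw [hP p hp.1 hp.2.2 hp.2.1, Matrix.rank_zero]
      · intro p _ hp
        rw [H.supp p hp, Matrix.rank_zero]
      · intro p _ _
        rfl
    rw [← H.sum_rank55, e1, Finset.sum_insert, Finset.sum_pair (by omega), h1, h1', h0]
    · ring
    · simp only [Finset.mem_insert, Finset.mem_singleton]
      omega
  have h2 : 2 ≤ Fintype.card n := by omega
  have hne : Nonempty n := Fintype.card_pos_iff.1 (by omega)
  have hI : NI.Indec (2 * m) (fun p => (P p).rank) := indec_three55 hk r1 r0 rr e4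
  have hcore : Core n m (fun p => (P p).rank) := core_three55 hk h2 r1 r0 rr core
  have hnum : ∀ d j : ℕ, 2 ≤ d → 2 ≤ j → Fintype.card n = d ^ j → (∀ p, d ^ (j - 1) ∣ (P p).rank) → False := by
    intro d j hd hj hN hdv
    exact num_three98 hs hcard e3 hd hj hN (h1 ▸ hdv (m + k))
  have hMT : ∀ (g : GL n ℂ) (z : ℂ), (m = 0 → z = 1) →
      (g : Matrix n n ℂ)ᵀ * toC Q * (g : Matrix n n ℂ) = z ^ 2 • toC Q →
      (g : Matrix n n ℂ).det = z ^ Fintype.card n → g ∈ MT S P :=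
    fun g z hz hg hd => zso_le_MT H (fun g hg hd => so_le_MT_core H hEnd hI hcore hnum hg hd) hz hg hd
  refine ⟨fun g => ⟨fun hg => MT_le H hg, ?_⟩, ?_⟩
  · rintro ⟨z, hz, hg, hd⟩
    exact hMT g z hz hg hd
  · intro hgcd ℓ _ ι Γ R G hss a b t
    refine tate_iff_core H G (vIrr_of_potIrr ι (potIrr_of_semiS hss.1 hss.2)) hMT hI hcore ?_ a b t
    intro d hd
    rcases (Nat.dvd_prime hs).1 (h1 ▸ hd (m + k)) with h3 | h3
    · exact h3
    · exfalso
      apply hgcd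
      rw [← h3, ← h0]
      exact hd m

end MH
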